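import Pool.Agent.Run7.h19.HP.Iface
import Pool.Agent.Results.MP_5499ac_co.SmallestRange

set_option autoImplicit false

open Module Submodule Finset Pool.Agent.H99.SubDeg
open Pool.Agent.Results.MP_5499ac_co.SmallestRange (Admissible high_eq not_zero adm)

namespace Run7.h19.HP

theorem adm_one (hA : S_ALL) (K : Type) [Field K] [Finite K] : Admissible K 1 := by
  have hq1 : 1 < Nat.card K := Finite.one_lt_card
  rcases Nat.lt_or_ge (Nat.card K) 3 with h3 | h3
  · have h2 : Nat.card K = 2 := by omega
    refine ⟨200, fun k n hk hn F h1 h2' => ?_⟩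
    have hV : finrank K (Fin n → K) = n := by simp
    rw [high_eq]
    rcases Nat.lt_or_ge n (2 * k + 2) with hlt | hge
    · have hn' : n = 2 * k + 1 := by omega
      have h4 := hA K (Fin n → K) k F h2 (by rw [hV, hn']) hk ⟨h1, h2'⟩
      refine h4.trans (le_of_eq ?_)
      rw [br, h2]
      simp
    · have h4 := high_card2 (K := K) (V := Fin n → K) k F (by omega) (by
        rw [hV]; left; omega) ⟨h1, h2'⟩
      rw [← br_mul] at h4
      exact Nat.le_of_mul_le_mul_right h4 (by omega)
  · exact adm K 1 (Or.inr ⟨h3, le_rfl⟩)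

theorem final (hA : S_ALL) (K : Type) [Field K] [Finite K] :
    IsLeast {M : ℤ | Admissible K M} 1 := by
  refine ⟨adm_one hA K, ?_⟩
  intro M hM
  by_contra hlt
  push Not at hlt
  exact not_zero K M (by omega) hM

end Run7.h19.HP
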