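import Pool.Agent.Run7.h19.HP.Iface

set_option autoImplicit false

open Module Submodule Finset Pool.Agent.H99.SubDeg

namespace Run7.h19.HP

open scoped Classical in
theorem t_ALL (hB : S_B) (hC : S_C) : S_ALL := by
  intro K _ _ V _ _ _ k F hq hn hk hF
  obtain ⟨G, hFG, hG⟩ := Finite.exists_le_maximal hF
  have hsub : high k F ⊆ high k G := by
    intro P hP
    simp only [high, Finset.mem_filter, Finset.mem_univ, true_and] at hP ⊢
    refine ⟨hP.1, hP.2.trans_le ?_⟩
    exact Finset.card_le_card (Finset.filter_subset_filter _ hFG)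
  refine (Finset.card_le_card hsub).trans ?_
  have hW : ∀ W : Submodule K V, finrank K W ≤ k + 1 → high k G ⊆ pts W →
      (high k G).card ≤ 2 ^ (k + 1) - 1 := by
    intro W hW hs
    refine (Finset.card_le_card hs).trans ?_
    have h1 := pts_card W
    rw [hq] at h1
    have h2 : 2 ^ finrank K W ≤ 2 ^ (k + 1) := Nat.pow_le_pow_right (by omega) hW
    omega
  rcases G.eq_empty_or_nonempty with hGe | ⟨A0, hA0⟩
  · have : high k G = ∅ := by
      rw [Finset.eq_empty_iff_forall_notMem]
      intro P hP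
      simp [high, deg, hGe] at hP
    rw [this]
    simp
  have hGk := hG.1.1
  have hint := hG.1.2
  have hex : ∃ s : ℕ, ∃ S : Submodule K V, finrank K S = s ∧ Transv G S :=
    ⟨k, A0, hGk A0 hA0, fun A hA => hint A hA A0 hA0⟩
  obtain ⟨T, hT, hTt⟩ := Nat.find_spec hex
  set τ := Nat.find hex with hτ
  have hmin : ∀ S : Submodule K V, finrank K S < τ → ¬ Transv G S := by
    intro S hS hSt
    exact Nat.find_min hex hS ⟨S, rfl, hSt⟩
  have hτk : τ ≤ k := Nat.find_le ⟨A0, hGk A0 hA0, fun A hA => hint A hA A0 hA0⟩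
  have hτ0 : τ ≠ 0 := by
    intro h0
    rw [h0, Submodule.finrank_eq_zero] at hT
    exact hTt A0 hA0 (by rw [hT, inf_bot_eq])
  rcases Nat.lt_or_ge τ 2 with hτ2 | hτ2
  · have hT1 : finrank K T = 1 := by omega
    refine hW T (by omega) (fun P hP => ?_)
    have hP' : finrank K P = 1 ∧ gb (Nat.card K) (finrank K V - 2) (k - 2) < deg G P := by
      simpa [high] using hP
    obtain ⟨hP1, hPd⟩ := hP'
    simp only [pts, Finset.mem_filter, Finset.mem_univ, true_and]
    refine ⟨hP1, ?_⟩
    by_contra hPT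
    have h1 := branching G P T hTt (gb (Nat.card K) (finrank K V - 2) (k - 2)) (fun Q hQ => by
      simp only [pts, Finset.mem_filter, Finset.mem_univ, true_and] at hQ
      have h2 : finrank K (P ⊔ Q : Submodule K V) = 2 := by
        rw [finrank_sup_point P Q hQ.1, hP1]
        intro h
        exact hPT (point_eq hQ.1 hP1 h ▸ hQ.2)
      have := deg_le G k hGk (P ⊔ Q) (by omega) (by omega)
      rwa [h2] at this)
    have h2 : (pts T).card = 1 := by
      have h3 := pts_card T
      rw [hT1, hq] at h3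
      simpa using h3
    rw [h2, one_mul] at h1
    omega
  · have hcfg : Cfg k τ G T := ⟨hq, hn, hG, hT, hTt, hmin, hτ2, hτk, hk⟩
    rcases Nat.lt_or_ge k (τ + 8) with h8 | h8
    · exact hC K V k τ G T hcfg h8
    · obtain ⟨W, h1, h2⟩ := hB K V k τ G T hcfg h8
      exact hW W h1 h2

end Run7.h19.HP
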