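import Pool.Agent.Run7.h19.HP.Iface

set_option autoImplicit false

open Module Submodule Finset Pool.Agent.H99.SubDeg

namespace Run7.h19.HP

open scoped Classical in
theorem t_C (hNEAR : S_NEAR) (hS1 : S_STEP1) (hS2 : S_STEP2) (hF2 : S_FIN2) (hF1 : S_FIN1)
    (hF0 : S_FIN0) : S_C := by
  intro K _ _ V _ _ _ k τ F T h hk8
  by_contra hbig
  push Not at hbig
  have hq := h.hq
  have hn := h.hn
  have hk := h.hk
  have hτk := h.hτk
  have hpts : ∀ W : Submodule K V, finrank K W ≤ k → (pts W).card ≤ 2 ^ k - 1 := by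
    intro W hW
    have h1 := pts_card W
    rw [hq] at h1
    have h2 : 2 ^ finrank K W ≤ 2 ^ k := Nat.pow_le_pow_right (by omega) hW
    omega
  -- a high point outside `T` and outside `T'`
  have hout : ∀ T' : Submodule K V, finrank K T' ≤ k → ∃ P, HighOut k F T P ∧ ¬ P ≤ T' := by
    intro T' hT'
    by_contra hno
    push Not at hno
    have hsub : high k F ⊆ pts T ∪ pts T' := by
      intro P hP
      have hP' : finrank K P = 1 ∧ gb (Nat.card K) (finrank K V - 2) (k - 2) < deg F P := by
        simpa [high] using hP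
      rw [hq, hn] at hP'
      rw [Finset.mem_union]
      simp only [pts, Finset.mem_filter, Finset.mem_univ, true_and]
      by_cases hPT : P ≤ T
      · exact Or.inl ⟨hP'.1, hPT⟩
      · exact Or.inr ⟨hP'.1, hno P ⟨hP'.1, hP'.2, hPT⟩⟩
    have h1 := (Finset.card_le_card hsub).trans (Finset.card_union_le _ _)
    have h2 := hpts T (by rw [h.hT]; exact hτk)
    have h3 := hpts T' hT'
    have h4 : 2 ^ (k + 1) = 2 * 2 ^ k := by rw [pow_succ]; ring
    have h5 : 1 ≤ 2 ^ k := Nat.one_le_two_pow
    omega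
  obtain ⟨P0, hP0, -⟩ := hout T (by rw [h.hT]; exact hτk)
  have hlt0 : Tlt F τ = ∅ := by
    rw [Finset.eq_empty_iff_forall_notMem]
    intro S hS
    simp only [Tlt, Finset.mem_filter, Finset.mem_univ, true_and] at hS
    exact h.hmin S hS.1 hS.2
  have hsucc : ∀ j : ℕ, (Tlt F (j + 1)).card ≤ (Tlt F j).card + (TT F j).card := by
    intro j
    refine (Finset.card_le_card ?_).trans (Finset.card_union_le _ _)
    intro S hS
    simp only [Tlt, TT, Finset.mem_filter, Finset.mem_union, Finset.mem_univ, true_and] at hS ⊢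
    rcases Nat.lt_or_ge (finrank K S) j with h1 | h1
    · exact Or.inl ⟨h1, hS.2⟩
    · exact Or.inr ⟨by omega, hS.2⟩
  have hpow : 2 * 2 ^ (40 * k) ≤ 2 ^ (41 * k) := by
    rw [← pow_succ']
    exact Nat.pow_le_pow_right (by omega) (by omega)
  have hpow1 : 1 ≤ 2 ^ (40 * k) := Nat.one_le_two_pow
  -- counting with `NEAR`
  have hnear : ∀ j : ℕ, j ≤ τ + 1 → (∀ T' ∈ TT F j,
      τ ≤ finrank K (T' ⊓ T : Submodule K V) + 10) → (TT F j).card ≤ 2 ^ (40 * k) := by
    intro j hj hT'
    refine (Finset.card_le_card ?_).trans (hNEAR K V k τ j T hq hn hk h.hT hτk hk8 hj)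
    intro S hS
    have h1 := hT' S hS
    simp only [TT, Finset.mem_filter, Finset.mem_univ, true_and] at hS ⊢
    exact ⟨hS.1, h1⟩
  rcases Nat.lt_or_ge k (τ + 2) with h2 | h2
  · rcases Nat.lt_or_ge k (τ + 1) with h1 | h1
    · exact hF0 K V k τ F T h (by omega) P0 hP0
    · have hk1 : τ + 1 = k := by omega
      have hTTτ : (TT F τ).card ≤ 2 ^ (40 * k) := hnear τ (by omega) (by
        intro T' hT'
        have hd : finrank K T' = τ := by
          simp only [TT, Finset.mem_filter] at hT'
          exact hT'.2.1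
        obtain ⟨P, hP, hPT'⟩ := hout T' (by omega)
        exact hS2 K V k τ F T h hk1 P hP T' hT' hPT')
      have h3 := hsucc τ
      rw [hlt0, Finset.card_empty, hk1] at h3
      exact hF1 K V k τ F T h hk1 (by omega) P0 hP0
  · have hstep : ∀ j : ℕ, (j = τ ∨ j = τ + 1) → (Tlt F j).card ≤ 2 ^ (41 * k) →
        (TT F j).card ≤ 2 ^ (40 * k) := by
      intro j hj hc
      refine hnear j (by omega) ?_
      intro T' hT'
      have hd : finrank K T' = j := by
        simp only [TT, Finset.mem_filter] at hT'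
        exact hT'.2.1
      obtain ⟨P, hP, hPT'⟩ := hout T' (by omega)
      exact hS1 K V k τ F T h hk8 h2 j hj hc P hP T' hT' hPT'
    have e1 := hstep τ (Or.inl rfl) (by rw [hlt0]; simp)
    have e2 := hsucc τ
    rw [hlt0, Finset.card_empty] at e2
    have e3 := hstep (τ + 1) (Or.inr rfl) (by omega)
    have e4 := hsucc (τ + 1)
    exact hF2 K V k τ F T h hk8 h2 (by
      rw [show τ + 2 = τ + 1 + 1 from rfl]; omega) P0 hP0

end Run7.h19.HP
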