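import Pool.Agent.Run7.h19.HP.LM
import Pool.Agent.Run7.h19.HP.C
import Pool.Agent.Run7.h19.HP.ALL
import Pool.Agent.Run7.h303.HP.AP
import Pool.Agent.Run7.h303.HP.NEAR
import Pool.Agent.Run7.h303.HP.STEP1
import Pool.Agent.Run7.h141.HP.BETA
import Pool.Agent.Run7.h141.HP.N5
import Pool.Agent.Run7.h391.HP.CUT
import Pool.Agent.Run7.h391.HP.FIN0
import Pool.Agent.Run7.h391.HP.STEP
import Pool.Agent.Run7.h872.HP.DY
import Pool.Agent.Run7.h872.HP.MEET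
import Pool.Agent.Run7.h872.HP.NPOP
import Pool.Agent.Run7.h301.HP.FIN
import Pool.Agent.Run7.h301.HP.N0
import Pool.Agent.Run7.h604.HP.G
import Pool.Agent.Run7.h604.HP.N1
import Pool.Agent.Run7.h862.HP.N2
import Pool.Agent.Run7.h862.HP.N3
import Pool.Agent.Run7.h862.HP.N6

set_option autoImplicit false

namespace Run7.h19.HP

theorem p_BETA : S_BETA := Run7.h141.HP.t_BETA Run7.h604.HP.t_G
theorem p_N1 : S_N1 := Run7.h604.HP.t_N1 p_BETA Run7.h301.HP.t_N0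
theorem p_N2 : S_N2 := Run7.h862.HP.t_N2 p_BETA Run7.h301.HP.t_N0
theorem p_N3 : S_N3 := Run7.h862.HP.t_N3 p_BETA Run7.h301.HP.t_N0
theorem p_N5 : S_N5 := Run7.h141.HP.t_N5 p_BETA
theorem p_N6 : S_N6 := Run7.h862.HP.t_N6 p_BETA
theorem p_DY : S_DY := Run7.h872.HP.t_DY t_LM
theorem p_STEP1 : S_STEP1 := Run7.h303.HP.t_STEP1 Run7.h391.HP.t_CUT Run7.h303.HP.t_AP p_N1
theorem p_STEP2 : S_STEP2 := Run7.h391.HP.t_STEP2 p_DY Run7.h303.HP.t_AP p_N5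
theorem p_FIN2 : S_FIN2 := Run7.h301.HP.t_FIN2 Run7.h391.HP.t_CUT p_N2
theorem p_FIN1 : S_FIN1 := Run7.h301.HP.t_FIN1 Run7.h391.HP.t_CUT p_N3
theorem p_FIN0 : S_FIN0 := Run7.h391.HP.t_FIN0 t_LM p_N6
theorem p_C : S_C := t_C Run7.h303.HP.t_NEAR p_STEP1 p_STEP2 p_FIN2 p_FIN1 p_FIN0
theorem p_POP1 : S_POP1 := Run7.h301.HP.t_POP1 Run7.h604.HP.t_G
theorem p_MEET : S_MEET := Run7.h872.HP.t_MEET
theorem p_NPOP : S_NPOP := Run7.h872.HP.t_NPOP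

end Run7.h19.HP
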