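import Pool.Agent.H99.SubFine

/-! # Interface of project HP (MP_5499ac_co, `q = 2`, `n = 2k+1`: `M_2 = 1`) -/

set_option autoImplicit false

open Module Submodule Finset Pool.Agent.H99.SubDeg

namespace Run7.h19.HP

/-- number of `k`-spaces through a `j`-space in dimension `2k+1` over `F_2` -/
def bb (k j : ℕ) : ℕ := gb 2 (2 * k + 1 - j) (k - j)

open scoped Classical in
section
variable {K : Type} [Field K] [Finite K] {V : Type} [AddCommGroup V] [Module K V] [Finite V]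

/-- The situation: `F` a maximal intersecting family of `k`-spaces of `F_2^(2k+1)`, `T` a
transversal of least dimension `τ`. -/
structure Cfg (k τ : ℕ) (F : Finset (Submodule K V)) (T : Submodule K V) : Prop where
  hq : Nat.card K = 2
  hn : finrank K V = 2 * k + 1
  hF : Maximal (Inter k) F
  hT : finrank K T = τ
  hTt : Transv F T
  hmin : ∀ S : Submodule K V, finrank K S < τ → ¬ Transv F S
  hτ2 : 2 ≤ τ
  hτk : τ ≤ k
  hk : 200 ≤ k

/-- transversals of dimension `j` -/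
noncomputable def TT (F : Finset (Submodule K V)) (j : ℕ) : Finset (Submodule K V) :=
  univ.filter (fun S => finrank K S = j ∧ Transv F S)

/-- transversals of dimension `< j` -/
noncomputable def Tlt (F : Finset (Submodule K V)) (j : ℕ) : Finset (Submodule K V) :=
  univ.filter (fun S => finrank K S < j ∧ Transv F S)

/-- members of `F` containing no transversal of dimension `< j` -/
noncomputable def Fge (F : Finset (Submodule K V)) (j : ℕ) : Finset (Submodule K V) :=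
  F.filter (fun A => ∀ S : Submodule K V, Transv F S → finrank K S < j → ¬ S ≤ A)

/-- transversals of dimension `j` containing `L`, minimal among those containing `L` -/
noncomputable def MTL (F : Finset (Submodule K V)) (L : Submodule K V) (j : ℕ) :
    Finset (Submodule K V) :=
  univ.filter (fun S => finrank K S = j ∧ Transv F S ∧ L ≤ S ∧
    ∀ S' : Submodule K V, L ≤ S' → Transv F S' → finrank K S' < j → ¬ S' ≤ S)

/-- popular lines -/
def Pop (k τ : ℕ) (F : Finset (Submodule K V)) (L : Submodule K V) : Prop :=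
  finrank K L = 2 ∧ (Transv F L ∨
    ∃ j, 3 ≤ j ∧ j ≤ τ + 3 ∧ 2 ^ (τ + 3) * (2 ^ k - 1) ^ (j - 3) < (MTL F L j).card)

end

open scoped Classical in
/-- branching through `F` down to dimension `j` -/
theorem iter {K : Type} [Field K] [Finite K] {V : Type} [AddCommGroup V] [Module K V] [Finite V]
    {k τ : ℕ} {F : Finset (Submodule K V)} {T : Submodule K V} (h : Cfg k τ F T)
    (𝒯 : Finset (Submodule K V)) (X : Submodule K V) (j m0 : ℕ)
    (hmeet : ∀ A ∈ 𝒯, ∀ G ∈ F, A ⊓ G ≠ ⊥)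
    (hno : ∀ A ∈ 𝒯, ∀ S : Submodule K V, X ≤ S → Transv F S → finrank K S < j → ¬ S ≤ A)
    (hend : ∀ S : Submodule K V, X ≤ S → finrank K S = j → deg 𝒯 S ≤ m0) :
    ∀ (i : ℕ) (S : Submodule K V), X ≤ S → finrank K S + i = j →
      deg 𝒯 S ≤ (2 ^ k - 1) ^ i * m0 := by
  intro i
  induction i with
  | zero =>
    intro S hS hd
    simpa using hend S hS (by omega)
  | succ i ih =>
    intro S hS hd
    by_cases hSt : Transv F S
    · have : deg 𝒯 S = 0 := by
        rw [deg, Finset.card_eq_zero, Finset.eq_empty_iff_forall_notMem]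
        intro A hA
        rw [Finset.mem_filter] at hA
        exact hno A hA.1 S hS hSt (by omega) hA.2
      rw [this]
      exact Nat.zero_le _
    · unfold Transv at hSt
      push Not at hSt
      obtain ⟨A, hA, hAS⟩ := hSt
      have hp : (pts A).card = 2 ^ k - 1 := by
        have h1 := pts_card A
        rw [h.hq, h.hF.1.1 A hA] at h1
        simpa using h1
      have h2 := branching 𝒯 S A (fun B hB => hmeet B hB A hA) ((2 ^ k - 1) ^ i * m0) (by
        intro Q hQ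
        simp only [pts, Finset.mem_filter, Finset.mem_univ, true_and] at hQ
        apply ih _ (hS.trans le_sup_left)
        rw [finrank_sup_point S Q hQ.1]
        · omega
        · intro h'
          have : Q ≤ A ⊓ S := le_inf hQ.2 h'
          rw [hAS, le_bot_iff] at this
          exact point_ne_bot hQ.1 this)
      rw [hp] at h2
      calc deg 𝒯 S ≤ (2 ^ k - 1) * ((2 ^ k - 1) ^ i * m0) := h2
        _ = (2 ^ k - 1) ^ (i + 1) * m0 := by rw [pow_succ]; ring

/-- [BASE] sizes: members of `F`, bound by `bb` -/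
theorem deg_bb {K : Type} [Field K] [Finite K] {V : Type} [AddCommGroup V] [Module K V] [Finite V]
    {k τ : ℕ} {F : Finset (Submodule K V)} {T : Submodule K V} (h : Cfg k τ F T)
    (F' : Finset (Submodule K V)) (hF' : F' ⊆ F) (S : Submodule K V) (hS : finrank K S ≤ k) :
    deg F' S ≤ bb k (finrank K S) := by
  have h1 := deg_le F' k (fun A hA => h.hF.1.1 A (hF' hA)) S hS (by rw [h.hn]; omega)
  rw [h.hq, h.hn] at h1
  exact h1

/-- [G] -/
def S_G : Prop := ∀ k i : ℕ, i < k →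
  2 ^ (k - i + 1) * ((2 ^ k - 1) * bb k (i + 1)) ≤ (2 ^ (k - i) - 1) * bb k i

/-- [N0] -/
def S_N0 : Prop := ∀ k τ : ℕ, 200 ≤ k → τ ≤ k → k < τ + 8 →
  2 ^ (41 * k) * bb k τ * 2 ^ 20 ≤ bb k 2

/-- [MEET] popular lines meet -/
def S_MEET : Prop := ∀ (K : Type) [Field K] [Finite K] (V : Type) [AddCommGroup V] [Module K V]
  [Finite V] (k τ : ℕ) (F : Finset (Submodule K V)) (T : Submodule K V), Cfg k τ F T →
  τ + 8 ≤ k → ∀ L L' : Submodule K V, Pop k τ F L → Pop k τ F L' → L ⊓ L' ≠ ⊥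

/-- [NPOP] lines which are not popular -/
def S_NPOP : Prop := ∀ (K : Type) [Field K] [Finite K] (V : Type) [AddCommGroup V] [Module K V]
  [Finite V] (k τ : ℕ) (F : Finset (Submodule K V)) (T : Submodule K V), Cfg k τ F T →
  τ + 8 ≤ k → ∀ L : Submodule K V, finrank K L = 2 → ¬ Pop k τ F L →
    2 ^ (τ + 1) * deg F L ≤ bb k 2

/-- [POP1] lines which are not transversals -/
def S_POP1 : Prop := ∀ (K : Type) [Field K] [Finite K] (V : Type) [AddCommGroup V] [Module K V]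
  [Finite V] (k τ : ℕ) (F : Finset (Submodule K V)) (T : Submodule K V), Cfg k τ F T →
  ∀ L : Submodule K V, finrank K L = 2 → ¬ Transv F L → 2 * deg F L ≤ bb k 2

/-- [B] the case `τ ≤ k - 8` -/
def S_B : Prop := ∀ (K : Type) [Field K] [Finite K] (V : Type) [AddCommGroup V] [Module K V]
  [Finite V] (k τ : ℕ) (F : Finset (Submodule K V)) (T : Submodule K V), Cfg k τ F T →
  τ + 8 ≤ k → ∃ W : Submodule K V, finrank K W ≤ k + 1 ∧ high k F ⊆ pts W

open scoped Classical in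
/-- [NEAR] -/
def S_NEAR : Prop := ∀ (K : Type) [Field K] [Finite K] (V : Type) [AddCommGroup V] [Module K V]
  [Finite V] (k τ j : ℕ) (T : Submodule K V), Nat.card K = 2 → finrank K V = 2 * k + 1 →
  200 ≤ k → finrank K T = τ → τ ≤ k → k < τ + 8 → j ≤ τ + 1 →
  (univ.filter (fun S : Submodule K V => finrank K S = j ∧ τ ≤ finrank K (S ⊓ T : Submodule K V) + 10)).card
    ≤ 2 ^ (40 * k)

/-- [AP] -/
def S_AP : Prop := ∀ (K : Type) [Field K] [Finite K] (V : Type) [AddCommGroup V] [Module K V]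
  [Finite V] (P T T' : Submodule K V) (A : Finset (Submodule K V)) (a : ℕ), Nat.card K = 2 →
  finrank K P = 1 → ¬ P ≤ T → ¬ P ≤ T' → A ⊆ pts T →
  (∀ Q ∈ A, (P ⊔ Q) ⊓ T' ≠ ⊥) → 2 ^ a ≤ A.card → a ≤ finrank K (T' ⊓ T : Submodule K V)

/-- [CUT] -/
def S_CUT : Prop := ∀ (K : Type) [Field K] [Finite K] (V : Type) [AddCommGroup V] [Module K V]
  [Finite V] (k τ : ℕ) (F : Finset (Submodule K V)) (T : Submodule K V), Cfg k τ F T →
  ∀ j : ℕ, j ≤ k → ∀ P : Submodule K V,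
    deg F P ≤ deg (Fge F j) P + (Tlt F j).card * bb k τ

open scoped Classical in
/-- [LM] -/
def S_LM : Prop := ∀ (K : Type) [Field K] [Finite K] (V : Type) [AddCommGroup V] [Module K V]
  [Finite V] (k τ : ℕ) (F : Finset (Submodule K V)) (T : Submodule K V), Cfg k τ F T →
  k ≤ τ + 1 → ∀ X : Submodule K V, finrank K X + 2 = τ →
    16 * ((TT F τ).filter (fun S => X ≤ S)).card ≤ 13 * 4 ^ k

/-- `P` is a high point outside `T` -/
def HighOut {K : Type} [Field K] [Finite K] {V : Type} [AddCommGroup V] [Module K V] [Finite V]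
    (k : ℕ) (F : Finset (Submodule K V)) (T P : Submodule K V) : Prop :=
  finrank K P = 1 ∧ bb k 2 < deg F P ∧ ¬ P ≤ T

/-- [STEP1] -/
def S_STEP1 : Prop := ∀ (K : Type) [Field K] [Finite K] (V : Type) [AddCommGroup V] [Module K V]
  [Finite V] (k τ : ℕ) (F : Finset (Submodule K V)) (T : Submodule K V), Cfg k τ F T →
  k < τ + 8 → τ + 2 ≤ k → ∀ j : ℕ, (j = τ ∨ j = τ + 1) → (Tlt F j).card ≤ 2 ^ (41 * k) →
  ∀ P : Submodule K V, HighOut k F T P → ∀ T' ∈ TT F j, ¬ P ≤ T' →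
    τ ≤ finrank K (T' ⊓ T : Submodule K V) + 10

/-- [STEP2] the case `τ + 1 = k`, `j = τ` -/
def S_STEP2 : Prop := ∀ (K : Type) [Field K] [Finite K] (V : Type) [AddCommGroup V] [Module K V]
  [Finite V] (k τ : ℕ) (F : Finset (Submodule K V)) (T : Submodule K V), Cfg k τ F T →
  τ + 1 = k → ∀ P : Submodule K V, HighOut k F T P → ∀ T' ∈ TT F τ, ¬ P ≤ T' →
    τ ≤ finrank K (T' ⊓ T : Submodule K V) + 10

/-- [FIN2] -/
def S_FIN2 : Prop := ∀ (K : Type) [Field K] [Finite K] (V : Type) [AddCommGroup V] [Module K V]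
  [Finite V] (k τ : ℕ) (F : Finset (Submodule K V)) (T : Submodule K V), Cfg k τ F T →
  k < τ + 8 → τ + 2 ≤ k → (Tlt F (τ + 2)).card ≤ 2 ^ (41 * k) →
  ∀ P : Submodule K V, ¬ HighOut k F T P

/-- [FIN1] -/
def S_FIN1 : Prop := ∀ (K : Type) [Field K] [Finite K] (V : Type) [AddCommGroup V] [Module K V]
  [Finite V] (k τ : ℕ) (F : Finset (Submodule K V)) (T : Submodule K V), Cfg k τ F T →
  τ + 1 = k → (Tlt F k).card ≤ 2 ^ (41 * k) → ∀ P : Submodule K V, ¬ HighOut k F T P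

/-- [FIN0] -/
def S_FIN0 : Prop := ∀ (K : Type) [Field K] [Finite K] (V : Type) [AddCommGroup V] [Module K V]
  [Finite V] (k τ : ℕ) (F : Finset (Submodule K V)) (T : Submodule K V), Cfg k τ F T →
  τ = k → ∀ P : Submodule K V, ¬ HighOut k F T P

/-- [C] the case `τ > k - 8` -/
def S_C : Prop := ∀ (K : Type) [Field K] [Finite K] (V : Type) [AddCommGroup V] [Module K V]
  [Finite V] (k τ : ℕ) (F : Finset (Submodule K V)) (T : Submodule K V), Cfg k τ F T →
  k < τ + 8 → (high k F).card ≤ 2 ^ (k + 1) - 1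

/-- [ALL] -/
def S_ALL : Prop := ∀ (K : Type) [Field K] [Finite K] (V : Type) [AddCommGroup V] [Module K V]
  [Finite V] (k : ℕ) (F : Finset (Submodule K V)), Nat.card K = 2 → finrank K V = 2 * k + 1 →
  200 ≤ k → Inter k F → (high k F).card ≤ 2 ^ (k + 1) - 1

open scoped Classical in
/-- sum form of branching: all members of `F'` meet `T`, `P` any subspace -/
theorem branch_sum {K : Type} [Field K] [Finite K] {V : Type} [AddCommGroup V] [Module K V]
    [Finite V] (F' : Finset (Submodule K V)) (P T : Submodule K V)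
    (hT : ∀ A ∈ F', A ⊓ T ≠ ⊥) : deg F' P ≤ ∑ Q ∈ pts T, deg F' (P ⊔ Q) := by
  have hsub : F'.filter (fun A => P ≤ A)
      ⊆ (pts T).biUnion (fun Q => F'.filter (fun A => P ⊔ Q ≤ A)) := by
    intro A hA
    rw [Finset.mem_filter] at hA
    obtain ⟨Q, hQ1, hQ2⟩ := exists_pt (A ⊓ T) (hT A hA.1)
    rw [Finset.mem_biUnion]
    refine ⟨Q, ?_, ?_⟩
    · simp only [pts, Finset.mem_filter, Finset.mem_univ, true_and]
      exact ⟨hQ1, hQ2.trans inf_le_right⟩
    · rw [Finset.mem_filter]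
      exact ⟨hA.1, sup_le hA.2 (hQ2.trans inf_le_left)⟩
  exact (Finset.card_le_card hsub).trans Finset.card_biUnion_le

/-- [DY] case `τ + 1 = k` -/
def S_DY : Prop := ∀ (K : Type) [Field K] [Finite K] (V : Type) [AddCommGroup V] [Module K V]
  [Finite V] (k τ : ℕ) (F : Finset (Submodule K V)) (T : Submodule K V), Cfg k τ F T →
  τ + 1 = k → ∀ Y : Submodule K V, finrank K Y + 2 = τ → 16 * deg F Y ≤ 55 * 8 ^ k

/-- [BETA] -/
def S_BETA : Prop := ∀ k i : ℕ, 2 ≤ i → i ≤ k →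
  (((2 ^ k - 1) ^ (i - 2) * bb k i : ℕ) : ℝ) ≤
    (bb k 2 : ℝ) * (1 / 2) ^ (i - 2) * ∏ e ∈ Finset.Ico (k - i + 1) (k - 1), (1 - (1 / 2 : ℝ) ^ e)

/-- [N1] -/
def S_N1 : Prop := ∀ k τ j : ℕ, 200 ≤ k → k < τ + 8 → τ + 2 ≤ k → (j = τ ∨ j = τ + 1) →
  2 ^ (τ - 10) * ((2 ^ k - 1) ^ (j - 2) * bb k j)
    + (2 ^ τ - 1) * ((2 ^ j - 1) * ((2 ^ k - 1) ^ (j - 3) * bb k j))
    + 2 ^ (41 * k) * bb k τ ≤ bb k 2

/-- [N2] -/
def S_N2 : Prop := ∀ k τ : ℕ, 200 ≤ k → k < τ + 8 → τ + 2 ≤ k →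
  (2 ^ τ - 1) * ((2 ^ k - 1) ^ τ * bb k (τ + 2)) + 2 ^ (41 * k) * bb k τ ≤ bb k 2

/-- [N3] -/
def S_N3 : Prop := ∀ k τ : ℕ, 200 ≤ k → τ + 1 = k →
  (2 ^ τ - 1) * ((2 ^ k - 1) ^ (k - 2) * bb k k) + 2 ^ (41 * k) * bb k τ ≤ bb k 2

/-- [N5] -/
def S_N5 : Prop := ∀ k : ℕ, 200 ≤ k →
  2 ^ (k - 11) * (2 ^ k - 1) ^ (k - 5) * (55 * 8 ^ k)
    + (2 ^ (k - 1) - 1) * (2 ^ (k - 1) - 1) * (2 ^ k - 1) ^ (k - 6) * (55 * 8 ^ k)
    ≤ 16 * bb k 2

/-- [N6] -/
def S_N6 : Prop := ∀ k : ℕ, 200 ≤ k →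
  (2 ^ k - 1) * (2 ^ k - 1) ^ (k - 4) * (13 * 4 ^ k) ≤ 16 * bb k 2

end Run7.h19.HP
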