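import Pool.Agent.Run7.h19.HP.Iface

set_option autoImplicit false

open Module Submodule Finset Pool.Agent.H99.SubDeg

namespace Run7.h19.HP

open scoped Classical in
section
variable {K : Type} [Field K] [Finite K] {V : Type} [AddCommGroup V] [Module K V] [Finite V]

/-- vectors of a subspace -/
noncomputable def vec (W : Submodule K V) : Finset V :=
  (Set.toFinite (W : Set V)).toFinset

lemma mem_vec (W : Submodule K V) (v : V) : v ∈ vec W ↔ v ∈ W := by
  simp [vec]

lemma vec_card (hq : Nat.card K = 2) (W : Submodule K V) : (vec W).card = 2 ^ finrank K W := by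
  have h1 : Nat.card W = Nat.card K ^ finrank K W := Module.natCard_eq_pow_finrank
  rw [hq] at h1
  rw [← h1, vec, ← Set.ncard_eq_toFinset_card]
  rfl

lemma two_elts (hq : Nat.card K = 2) (a : K) : a = 0 ∨ a = 1 := by
  by_contra hc
  push Not at hc
  haveI : Fintype K := Fintype.ofFinite K
  have h1 : ({0, 1, a} : Finset K).card = 3 := by
    rw [Finset.card_insert_of_notMem, Finset.card_insert_of_notMem, Finset.card_singleton]
    · simp only [Finset.mem_singleton]
      exact fun h => hc.2 h.symm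
    · simp only [Finset.mem_insert, Finset.mem_singleton]
      rintro (h | h)
      · exact zero_ne_one h
      · exact hc.1 h.symm
  have h2 := Finset.card_le_univ ({0, 1, a} : Finset K)
  rw [h1, ← Nat.card_eq_fintype_card, hq] at h2
  omega

/-- the pairs with `r1 + r2` in `X ⊔ C` -/
lemma pairs_sum (hq : Nat.card K = 2) (X A B C : Submodule K V) (hBX : B ⊓ X = ⊥) :
    ((vec A ×ˢ vec B).filter (fun r => r.1 + r.2 ∈ X ⊔ C)).card
      ≤ (vec C).card * 2 ^ finrank K (A ⊓ (X ⊔ B) : Submodule K V) := by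
  have hsub : (vec A ×ˢ vec B).filter (fun r => r.1 + r.2 ∈ X ⊔ C) ⊆
      (vec C).biUnion (fun c => (vec A ×ˢ vec B).filter (fun r => r.1 + r.2 - c ∈ X)) := by
    intro r hr
    rw [Finset.mem_filter] at hr
    obtain ⟨ξ, hξ, c, hc, he⟩ := Submodule.mem_sup.mp hr.2
    rw [Finset.mem_biUnion]
    refine ⟨c, (mem_vec _ _).mpr hc, ?_⟩
    rw [Finset.mem_filter]
    refine ⟨hr.1, ?_⟩
    rw [← he]
    simpa using hξ
  refine (Finset.card_le_card hsub).trans (Finset.card_biUnion_le_card_mul _ _ _ ?_)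
  intro c _
  rcases Finset.eq_empty_or_nonempty ((vec A ×ˢ vec B).filter (fun r => r.1 + r.2 - c ∈ X))
    with h0 | ⟨p0, hp0⟩
  · rw [h0]; simp
  · rw [← vec_card hq]
    rw [Finset.mem_filter, Finset.mem_product, mem_vec, mem_vec] at hp0
    refine Finset.card_le_card_of_injOn (fun p => p.1 - p0.1) ?_ ?_
    · intro p hp
      rw [Finset.mem_coe, Finset.mem_filter, Finset.mem_product, mem_vec, mem_vec] at hp
      rw [Finset.mem_coe, mem_vec]
      refine ⟨A.sub_mem hp.1.1 hp0.1.1, ?_⟩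
      have h1 : p.1 - p0.1 = ((p.1 + p.2 - c) - (p0.1 + p0.2 - c)) + (p0.2 - p.2) := by abel
      show p.1 - p0.1 ∈ X ⊔ B
      rw [h1]
      exact Submodule.add_mem_sup (X.sub_mem hp.2 hp0.2) (B.sub_mem hp0.1.2 hp.1.2)
    · intro p hp p' hp' he
      rw [Finset.mem_coe, Finset.mem_filter, Finset.mem_product, mem_vec, mem_vec] at hp hp'
      have he1 : p.1 = p'.1 := by
        have : p.1 - p0.1 = p'.1 - p0.1 := he
        exact sub_left_injective this
      have h2 : p.2 - p'.2 ∈ B ⊓ X := by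
        refine ⟨B.sub_mem hp.1.2 hp'.1.2, ?_⟩
        have h3 : p.2 - p'.2 = (p.1 + p.2 - c) - (p'.1 + p'.2 - c) := by rw [he1]; abel
        rw [h3]
        exact X.sub_mem hp.2 hp'.2
      rw [hBX, Submodule.mem_bot, sub_eq_zero] at h2
      exact Prod.ext he1 h2

end

open scoped Classical in
theorem t_LM : S_LM := by
  intro K _ _ V _ _ _ k τ F T h hk1 X hX
  have hq := h.hq
  have hn := h.hn
  have hFk := h.hF.1.1
  have hint := h.hF.1.2
  have hk := h.hk
  have hτk := h.hτk
  set 𝒮 := (TT F τ).filter (fun S => X ≤ S) with h𝒮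
  have h𝒮m : ∀ S, S ∈ 𝒮 ↔ (finrank K S = τ ∧ Transv F S) ∧ X ≤ S := by
    intro S; simp [h𝒮, TT]
  set KK := F.filter (fun A => A ⊓ X = ⊥) with hKK
  have hKKm : ∀ A, A ∈ KK ↔ A ∈ F ∧ A ⊓ X = ⊥ := by intro A; simp [hKK]
  -- a member missing `X ⊔ R`
  have hmiss : ∀ S : Submodule K V, X ≤ S → finrank K S < τ →
      ∃ C ∈ KK, C ⊓ S = ⊥ := by
    intro S hXS hS
    have h1 := h.hmin S hS
    unfold Transv at h1
    push Not at h1
    obtain ⟨C, hC, hCS⟩ := h1
    refine ⟨C, (hKKm C).mpr ⟨hC, ?_⟩, hCS⟩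
    rw [eq_bot_iff, ← hCS]
    exact inf_le_inf_left C hXS
  have hRC : ∀ R C : Submodule K V, C ⊓ (X ⊔ R) = ⊥ → R ⊓ X = ⊥ → R ⊓ (X ⊔ C) = ⊥ := by
    intro R C hC hRX
    rw [eq_bot_iff]
    rintro r ⟨hr1, hr2⟩
    obtain ⟨ξ, hξ, c, hc, he⟩ := Submodule.mem_sup.mp hr2
    have hc1 : c ∈ C ⊓ (X ⊔ R) := by
      refine ⟨hc, ?_⟩
      have : c = (-ξ) + r := by rw [← he]; abel
      show c ∈ X ⊔ R
      rw [this]
      exact Submodule.add_mem_sup (X.neg_mem hξ) hr1
    rw [hC, Submodule.mem_bot] at hc1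
    rw [hc1, add_zero] at he
    have : r ∈ R ⊓ X := ⟨hr1, he ▸ hξ⟩
    rwa [hRX] at this
  -- dimension of `A ⊓ (X ⊔ B)`
  set M : Submodule K V → Submodule K V → Submodule K V := fun A B => A ⊓ (X ⊔ B) with hM
  have hdim : ∀ A ∈ KK, ∀ B ∈ KK, finrank K (M A B) + finrank K (A ⊔ (X ⊔ B) : Submodule K V)
      = 2 * k + finrank K X := by
    intro A hA B hB
    have h1 := Submodule.finrank_sup_add_finrank_inf_eq A (X ⊔ B)
    have h2 := Submodule.finrank_sup_add_finrank_inf_eq X B
    rw [inf_comm X B, ((hKKm B).mp hB).2, finrank_bot, hFk B ((hKKm B).mp hB).1] at h2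
    rw [hFk A ((hKKm A).mp hA).1] at h1
    have h3 : M A B = A ⊓ (X ⊔ B) := rfl
    rw [h3]
    omega
  have hsym : ∀ A ∈ KK, ∀ B ∈ KK, finrank K (M A B) = finrank K (M B A) := by
    intro A hA B hB
    have h1 := hdim A hA B hB
    have h2 := hdim B hB A hA
    have h3 : A ⊔ (X ⊔ B) = B ⊔ (X ⊔ A) := by
      rw [← sup_assoc, sup_comm A X, sup_assoc, sup_comm A B, ← sup_assoc, sup_comm X B, sup_assoc]
    rw [h3] at h1
    omega
  have hlow : ∀ A ∈ KK, ∀ B ∈ KK, finrank K X ≤ finrank K (M A B) + 1 := by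
    intro A hA B hB
    have h1 := hdim A hA B hB
    have h2 := Submodule.finrank_le (A ⊔ (X ⊔ B) : Submodule K V)
    omega
  -- a pair with `m < k`
  obtain ⟨A1, hA1, hA1X⟩ := hmiss X le_rfl (by omega)
  have hpair : ∃ A ∈ KK, ∃ B ∈ KK, finrank K (M A B) < k := by
    have hA1k := hFk A1 ((hKKm A1).mp hA1).1
    obtain ⟨R, hR, hRA⟩ := exists_pt A1 (by
      intro h0
      rw [h0, finrank_bot] at hA1k
      omega)
    have hRX : R ⊓ X = ⊥ := by
      rw [eq_bot_iff, ← hA1X]
      exact inf_le_inf_right X hRA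
    have hRX' : ¬ R ≤ X := by
      intro hle
      rw [inf_eq_left.mpr hle] at hRX
      exact point_ne_bot hR hRX
    obtain ⟨B, hB, hBR⟩ := hmiss (X ⊔ R) le_sup_left (by
      rw [finrank_sup_point X R hR hRX']; omega)
    refine ⟨A1, hA1, B, hB, ?_⟩
    have h3 := hRC R B hBR hRX
    rcases Nat.lt_or_ge (finrank K (M A1 B)) k with h4 | h4
    · exact h4
    · exfalso
      have h5 : M A1 B = A1 := eq_of_le_of_finrank_le inf_le_left (by rw [hA1k]; exact h4)
      have h6 : R ≤ X ⊔ B := hRA.trans (h5 ▸ inf_le_right)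
      rw [inf_eq_left.mpr h6] at h3
      exact point_ne_bot hR h3
  -- choose the pair with the largest `m < k`
  obtain ⟨A, B, hA, hB, hmk, hmax⟩ : ∃ A B, A ∈ KK ∧ B ∈ KK ∧ finrank K (M A B) < k ∧
      ∀ A' ∈ KK, ∀ B' ∈ KK, finrank K (M A' B') < k → finrank K (M A' B') ≤ finrank K (M A B) := by
    obtain ⟨A', hA', B', hB', hlt⟩ := hpair
    obtain ⟨⟨A, B⟩, hAB, hmax⟩ := Finset.exists_max_image
      ((KK ×ˢ KK).filter (fun r => finrank K (M r.1 r.2) < k)) (fun r => finrank K (M r.1 r.2))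
      ⟨(A', B'), by simp [hA', hB', hlt]⟩
    rw [Finset.mem_filter, Finset.mem_product] at hAB
    refine ⟨A, B, hAB.1.1, hAB.1.2, hAB.2, fun C hC D hD hCD => ?_⟩
    exact hmax (C, D) (by simp [hC, hD, hCD])
  set m := finrank K (M A B) with hm
  have hAF := (hKKm A).mp hA
  have hBF := (hKKm B).mp hB
  -- part 1
  have hpart1 : (𝒮.filter (fun S => S ⊓ M A B ≠ ⊥)).card ≤ (2 ^ m - 1) * (2 ^ k - 1) := by
    set 𝒮' := 𝒮.filter (fun S => S ⊓ M A B ≠ ⊥) with h𝒮'
    have hS'm : ∀ S ∈ 𝒮', ((finrank K S = τ ∧ Transv F S) ∧ X ≤ S) ∧ S ⊓ M A B ≠ ⊥ := by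
      intro S hS
      rw [h𝒮', Finset.mem_filter, h𝒮m] at hS
      exact hS
    have h1 : deg 𝒮' X = 𝒮'.card := by
      rw [deg, Finset.filter_true_of_mem]
      intro S hS
      exact (hS'm S hS).1.2
    have h2 := branching 𝒮' X (M A B) (fun S hS => (hS'm S hS).2) ((2 ^ k - 1) ^ 1 * 1) (by
      intro Q hQ
      simp only [pts, Finset.mem_filter, Finset.mem_univ, true_and] at hQ
      refine iter h 𝒮' X τ 1 (fun S hS G hG => by
          rw [inf_comm]; exact (hS'm S hS).1.1.2 G hG)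
        (fun S hS S' _ hS't hd _ => h.hmin S' hd hS't) ?_ 1 (X ⊔ Q) le_sup_left ?_
      · intro S _ hS
        rw [deg, Finset.card_le_one]
        intro C hC D hD
        simp only [Finset.mem_filter] at hC hD
        have e1 := (hS'm C hC.1).1.1.1
        have e2 := (hS'm D hD.1).1.1.1
        rw [← eq_of_le_of_finrank_eq hC.2 (by omega), ← eq_of_le_of_finrank_eq hD.2 (by omega)]
      · rw [finrank_sup_point X Q hQ.1]
        · omega
        · intro hle
          have : Q ≤ A ⊓ X := le_inf (hQ.2.trans inf_le_left) hle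
          rw [hAF.2, le_bot_iff] at this
          exact point_ne_bot hQ.1 this)
    have h3 : (pts (M A B)).card = 2 ^ m - 1 := by
      have := pts_card (M A B)
      rw [hq] at this
      simpa using this
    rw [h1, h3] at h2
    simpa using h2
  -- part 2
  have hrep : ∀ S ∈ 𝒮.filter (fun S => ¬ S ⊓ M A B ≠ ⊥), ∃ r1 r2 : V, r1 ∈ A ∧ r1 ∉ M A B ∧
      r2 ∈ B ∧ r2 ∉ M B A ∧ S = X ⊔ span K {r1} ⊔ span K {r2} := by
    intro S hS
    rw [Finset.mem_filter, h𝒮m] at hS
    push Not at hS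
    obtain ⟨⟨⟨hSd, hSt⟩, hXS⟩, hSM⟩ := hS
    have h1 := hSt A hAF.1
    have h2 := hSt B hBF.1
    obtain ⟨r1, ⟨hr1A, hr1S⟩, hr10⟩ := (Submodule.ne_bot_iff _).mp h1
    obtain ⟨r2, ⟨hr2B, hr2S⟩, hr20⟩ := (Submodule.ne_bot_iff _).mp h2
    have h3 : r1 ∉ M A B := by
      intro hc
      have : r1 ∈ S ⊓ M A B := ⟨hr1S, hc⟩
      rw [hSM, Submodule.mem_bot] at this
      exact hr10 this
    have h4 : r2 ∉ X ⊔ A := by
      intro hc
      obtain ⟨ξ, hξ, a, ha, he⟩ := Submodule.mem_sup.mp hc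
      have ha1 : a ∈ S ⊓ M A B := by
        refine ⟨?_, ha, ?_⟩
        · have : a = r2 - ξ := by rw [← he]; abel
          rw [this]
          exact S.sub_mem hr2S (hXS hξ)
        · have : a = (-ξ) + r2 := by rw [← he]; abel
          show a ∈ X ⊔ B
          rw [this]
          exact Submodule.add_mem_sup (X.neg_mem hξ) hr2B
      rw [hSM, Submodule.mem_bot] at ha1
      rw [ha1, add_zero] at he
      have : r2 ∈ B ⊓ X := ⟨hr2B, he ▸ hξ⟩
      rw [hBF.2, Submodule.mem_bot] at this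
      exact hr20 this
    refine ⟨r1, r2, hr1A, h3, hr2B, fun hc => h4 hc.2, ?_⟩
    have h5 : r1 ∉ X := fun hc => h3 ⟨hr1A, (le_sup_left : X ≤ X ⊔ B) hc⟩
    have h6 : finrank K (X ⊔ span K {r1} : Submodule K V) = finrank K X + 1 := by
      rw [finrank_sup_point X _ (finrank_span_singleton hr10)]
      intro hc
      exact h5 ((span_singleton_le_iff_mem r1 X).mp hc)
    have h7 : finrank K (X ⊔ span K {r1} ⊔ span K {r2} : Submodule K V) = finrank K X + 2 := by
      rw [finrank_sup_point (X ⊔ span K {r1}) _ (finrank_span_singleton hr20), h6]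
      intro hc
      refine h4 ?_
      have h8 := (span_singleton_le_iff_mem r2 _).mp hc
      exact (sup_le_sup_left ((span_singleton_le_iff_mem r1 A).mpr hr1A) X) h8
    symm
    refine eq_of_le_of_finrank_eq (sup_le (sup_le hXS
      ((span_singleton_le_iff_mem r1 S).mpr hr1S)) ((span_singleton_le_iff_mem r2 S).mpr hr2S)) ?_
    rw [h7, hSd, hX]
  have hvA : (vec A).card = 2 ^ k := by rw [vec_card hq, hFk A hAF.1]
  have hvB : (vec B).card = 2 ^ k := by rw [vec_card hq, hFk B hBF.1]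
  have hsplit := Finset.card_filter_add_card_filter_not (s := 𝒮) (fun S => S ⊓ M A B ≠ ⊥)
  rcases Nat.lt_or_ge (k - 3) m with hm3 | hm3
  · -- `m = k - 1` or `m = k - 2`
    have hpart2 : (𝒮.filter (fun S => ¬ S ⊓ M A B ≠ ⊥)).card ≤ (2 ^ k - 2 ^ m) * (2 ^ k - 2 ^ m) := by
      have hsub : 𝒮.filter (fun S => ¬ S ⊓ M A B ≠ ⊥) ⊆
          ((vec A \ vec (M A B)) ×ˢ (vec B \ vec (M B A))).image
            (fun r => X ⊔ span K {r.1} ⊔ span K {r.2}) := by
        intro S hS
        obtain ⟨r1, r2, h1, h2, h3, h4, h5⟩ := hrep S hS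
        rw [Finset.mem_image]
        refine ⟨(r1, r2), ?_, h5.symm⟩
        simp only [Finset.mem_product, Finset.mem_sdiff, mem_vec]
        exact ⟨⟨h1, h2⟩, h3, h4⟩
      refine (Finset.card_le_card hsub).trans (Finset.card_image_le.trans ?_)
      rw [Finset.card_product, Finset.card_sdiff_of_subset, Finset.card_sdiff_of_subset, hvA, hvB,
        vec_card hq, vec_card hq, ← hsym A hA B hB, ← hm]
      · intro v hv
        rw [mem_vec] at hv ⊢
        exact hv.1
      · intro v hv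
        rw [mem_vec] at hv ⊢
        exact hv.1
    have h4k : 4 ^ k = 2 ^ k * 2 ^ k := by rw [← mul_pow]; norm_num
    have hcase : m = k - 1 ∨ m = k - 2 := by omega
    rcases hcase with hc | hc
    · obtain ⟨y, hy⟩ : ∃ y, 2 ^ m = y := ⟨_, rfl⟩
      have h2k : 2 ^ k = 2 * y := by
        rw [← hy, hc, ← pow_succ']; congr 1; omega
      have hy1 : 1 ≤ y := hy ▸ Nat.one_le_two_pow
      rw [hy] at hpart1 hpart2
      rw [h2k] at hpart1 hpart2 h4k
      rw [h4k]
      have e1 : 2 * y - y = y := by omega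
      rw [e1] at hpart2
      have e2 : (y - 1) * (2 * y - 1) ≤ y * (2 * y) := Nat.mul_le_mul (by omega) (by omega)
      nlinarith
    · obtain ⟨y, hy⟩ : ∃ y, 2 ^ m = y := ⟨_, rfl⟩
      have h2k : 2 ^ k = 4 * y := by
        rw [← hy, hc, show (4 : ℕ) = 2 ^ 2 from rfl, ← pow_add]; congr 1; omega
      rw [hy] at hpart1 hpart2
      rw [h2k] at hpart1 hpart2 h4k
      rw [h4k]
      have e1 : 4 * y - y = 3 * y := by omega
      rw [e1] at hpart2
      have e2 : (y - 1) * (4 * y - 1) ≤ y * (4 * y) := Nat.mul_le_mul (by omega) (by omega)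
      nlinarith
  · -- `m ≤ k - 3`
    have hm1 : 1 ≤ m := by
      have := hlow A hA B hB
      omega
    obtain ⟨R, hR, hRM⟩ := exists_pt (M A B) (by
      intro h0
      rw [h0, finrank_bot] at hm
      omega)
    have hRX : R ⊓ X = ⊥ := by
      rw [eq_bot_iff, ← hAF.2]
      exact inf_le_inf_right X (hRM.trans inf_le_left)
    have hRX' : ¬ R ≤ X := by
      intro hle
      rw [inf_eq_left.mpr hle] at hRX
      exact point_ne_bot hR hRX
    obtain ⟨C, hC, hCR⟩ := hmiss (X ⊔ R) le_sup_left (by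
      rw [finrank_sup_point X R hR hRX']; omega)
    have hRC' := hRC R C hCR hRX
    have hCF := (hKKm C).mp hC
    obtain ⟨r, hrR, hr0⟩ := (Submodule.ne_bot_iff _).mp (point_ne_bot hR)
    have hrC : r ∉ X ⊔ C := by
      intro hc
      have : r ∈ R ⊓ (X ⊔ C) := ⟨hrR, hc⟩
      rw [hRC', Submodule.mem_bot] at this
      exact hr0 this
    have hAC : finrank K (M A C) ≤ k - 3 := by
      refine (hmax A hA C hC ?_).trans hm3
      rcases Nat.lt_or_ge (finrank K (M A C)) k with h4 | h4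
      · exact h4
      · exfalso
        have h5 : M A C = A := eq_of_le_of_finrank_le inf_le_left (by
          rw [hFk A hAF.1]; exact h4)
        have h6 : A ≤ X ⊔ C := h5 ▸ inf_le_right
        exact hrC (h6 (hRM hrR).1)
    have hBC : finrank K (M B C) ≤ k - 3 := by
      refine (hmax B hB C hC ?_).trans hm3
      rcases Nat.lt_or_ge (finrank K (M B C)) k with h4 | h4
      · exact h4
      · exfalso
        have h5 : M B C = B := eq_of_le_of_finrank_le inf_le_left (by
          rw [hFk B hBF.1]; exact h4)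
        have h6 : B ≤ X ⊔ C := h5 ▸ inf_le_right
        have h7 : X ⊔ B ≤ X ⊔ C := sup_le le_sup_left h6
        exact hrC (h7 (hRM hrR).2)
    have hvC : (vec C).card = 2 ^ k := by rw [vec_card hq, hFk C hCF.1]
    have hpart2 : (𝒮.filter (fun S => ¬ S ⊓ M A B ≠ ⊥)).card ≤
        2 ^ (k - 3) * 2 ^ k + 2 ^ k * 2 ^ (k - 3) + 2 ^ k * 2 ^ m := by
      have hsub : 𝒮.filter (fun S => ¬ S ⊓ M A B ≠ ⊥) ⊆
          (((vec (M A C)) ×ˢ (vec B)) ∪ ((vec A) ×ˢ (vec (M B C))) ∪
            ((vec A ×ˢ vec B).filter (fun r => r.1 + r.2 ∈ X ⊔ C))).image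
            (fun r => X ⊔ span K {r.1} ⊔ span K {r.2}) := by
        intro S hS
        obtain ⟨r1, r2, h1, h2, h3, h4, h5⟩ := hrep S hS
        rw [Finset.mem_image]
        refine ⟨(r1, r2), ?_, h5.symm⟩
        rw [Finset.mem_filter, h𝒮m] at hS
        have h6 := hS.1.1.2 C hCF.1
        obtain ⟨c, ⟨hcC, hcS⟩, hc0⟩ := (Submodule.ne_bot_iff _).mp h6
        rw [h5] at hcS
        obtain ⟨u, hu, w, hw, he⟩ := Submodule.mem_sup.mp hcS
        obtain ⟨ξ, hξ, v, hv, he2⟩ := Submodule.mem_sup.mp hu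
        obtain ⟨b, hb⟩ := Submodule.mem_span_singleton.mp hw
        obtain ⟨a, ha⟩ := Submodule.mem_span_singleton.mp hv
        have hcc : c = ξ + a • r1 + b • r2 := by rw [ha, hb, he2, he]
        simp only [Finset.mem_union, Finset.mem_product, Finset.mem_filter, mem_vec]
        rcases two_elts hq a with ha0 | ha1
        · rcases two_elts hq b with hb0 | hb1
          · exfalso
            rw [ha0, hb0, zero_smul, zero_smul, add_zero, add_zero] at hcc
            have : c ∈ C ⊓ X := ⟨hcC, hcc ▸ hξ⟩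
            rw [hCF.2, Submodule.mem_bot] at this
            exact hc0 this
          · left; right
            refine ⟨h1, h3, ?_⟩
            rw [ha0, hb1, zero_smul, one_smul, add_zero] at hcc
            have : r2 = (-ξ) + c := by rw [hcc]; abel
            show r2 ∈ X ⊔ C
            rw [this]
            exact Submodule.add_mem_sup (X.neg_mem hξ) hcC
        · rcases two_elts hq b with hb0 | hb1
          · left; left
            refine ⟨⟨h1, ?_⟩, h3⟩
            rw [ha1, hb0, zero_smul, one_smul, add_zero] at hcc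
            have : r1 = (-ξ) + c := by rw [hcc]; abel
            show r1 ∈ X ⊔ C
            rw [this]
            exact Submodule.add_mem_sup (X.neg_mem hξ) hcC
          · right
            refine ⟨⟨h1, h3⟩, ?_⟩
            rw [ha1, hb1, one_smul, one_smul] at hcc
            have : r1 + r2 = (-ξ) + c := by rw [hcc]; abel
            rw [this]
            exact Submodule.add_mem_sup (X.neg_mem hξ) hcC
      refine (Finset.card_le_card hsub).trans (Finset.card_image_le.trans
        ((Finset.card_union_le _ _).trans (Nat.add_le_add ((Finset.card_union_le _ _).trans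
          (Nat.add_le_add ?_ ?_)) ?_)))
      · rw [Finset.card_product, hvB, vec_card hq]
        exact Nat.mul_le_mul_right _ (Nat.pow_le_pow_right (by omega) hAC)
      · rw [Finset.card_product, hvA, vec_card hq]
        exact Nat.mul_le_mul_left _ (Nat.pow_le_pow_right (by omega) hBC)
      · have := pairs_sum hq X A B C hBF.2
        rw [hvC] at this
        exact this
    have h4k : 4 ^ k = 2 ^ k * 2 ^ k := by rw [← mul_pow]; norm_num
    obtain ⟨y, hy⟩ : ∃ y, 2 ^ (k - 3) = y := ⟨_, rfl⟩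
    have h2k : 2 ^ k = 8 * y := by
      rw [← hy, show (8 : ℕ) = 2 ^ 3 from rfl, ← pow_add]; congr 1; omega
    have h2m : 2 ^ m ≤ y := by
      rw [← hy]
      exact Nat.pow_le_pow_right (by omega) hm3
    rw [hy] at hpart2
    rw [h2k] at hpart1 hpart2 h4k
    rw [h4k]
    have e2 : (2 ^ m - 1) * (8 * y - 1) ≤ y * (8 * y) := Nat.mul_le_mul (by omega) (by omega)
    have e3 : 8 * y * 2 ^ m ≤ 8 * y * y := Nat.mul_le_mul_left _ h2m
    nlinarith

end Run7.h19.HP
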